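import Pool.Agent.MP_36bee5_al.TrFin

set_option autoImplicit false

open MvPolynomial

/-- Let `J ⊆ K[y_1, …, y_n]` have a 2-linear resolution and `R = (K[y] / J)[x_1, …, x_m]`.
A product of ideals of `R` generated by linear forms has a linear resolution over `R` if, for each
nonempty subfamily, the linear forms in the `y` lying in the sum of its ideals are all zero or cut
out, with one more linear form, the empty set (or the subfamily is one ideal with a linear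
resolution). -/
theorem Pool.Agent.Results.MP_36bee5_al.ConeProducts.result (K : Type) [Field K] (n m : ℕ)
    (J : Ideal (MvPolynomial (Fin n) K))
    (hJ : ∃ (b : ℕ → ℕ) (g : Fin (b 0) → MvPolynomial (Fin n) K)
      (A : (i : ℕ) → Matrix (Fin (b i)) (Fin (b (i + 1))) (MvPolynomial (Fin n) K)),
      (∀ j, (g j).IsHomogeneous 2) ∧ (∀ i p q, (A i p q).IsHomogeneous 1) ∧
      Ideal.span (Set.range g) = J ∧
      (∀ v : Fin (b 0) → MvPolynomial (Fin n) K, ∑ j, v j * g j = 0 ↔ ∃ w, (A 0).mulVec w = v) ∧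
      (∀ (i : ℕ) (v : Fin (b (i + 1)) → MvPolynomial (Fin n) K),
        (A i).mulVec v = 0 ↔ ∃ w, (A (i + 1)).mulVec w = v))
    (H : ℕ → MvPolynomial (Fin m) (MvPolynomial (Fin n) K ⧸ J) → Prop)
    (hH : ∀ k r, H k r ↔ ∃ p : MvPolynomial (Fin m ⊕ Fin n) K, p.IsHomogeneous k ∧
      aeval (Sum.elim X fun i => C (Ideal.Quotient.mk J (X i))) p = r)
    (LinRes : ℕ → Ideal (MvPolynomial (Fin m) (MvPolynomial (Fin n) K ⧸ J)) → Prop)
    (hL : ∀ e P, LinRes e P ↔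
      ∃ (b : ℕ → ℕ) (g : Fin (b 0) → MvPolynomial (Fin m) (MvPolynomial (Fin n) K ⧸ J))
        (A : (i : ℕ) → Matrix (Fin (b i)) (Fin (b (i + 1)))
          (MvPolynomial (Fin m) (MvPolynomial (Fin n) K ⧸ J))),
        (∀ j, H e (g j)) ∧ (∀ i p q, H 1 (A i p q)) ∧ Ideal.span (Set.range g) = P ∧
        (∀ v : Fin (b 0) → MvPolynomial (Fin m) (MvPolynomial (Fin n) K ⧸ J),
          ∑ j, v j * g j = 0 ↔ ∃ w, (A 0).mulVec w = v) ∧
        (∀ (i : ℕ) (v : Fin (b (i + 1)) → MvPolynomial (Fin m) (MvPolynomial (Fin n) K ⧸ J)),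
          (A i).mulVec v = 0 ↔ ∃ w, (A (i + 1)).mulVec w = v))
    (d : ℕ) (I : Fin d → Ideal (MvPolynomial (Fin m) (MvPolynomial (Fin n) K ⧸ J)))
    (hI : ∀ k, I k = Ideal.span {r | r ∈ I k ∧ H 1 r})
    (hyp : ∀ s : Finset (Fin d), s.Nonempty →
      (∀ u : MvPolynomial (Fin n) K, u.IsHomogeneous 1 →
        C (Ideal.Quotient.mk J u) ∈ ∑ k ∈ s, I k → u ∈ J) ∨
      (∃ z : MvPolynomial (Fin n) K, z.IsHomogeneous 1 ∧ ∀ i, ∃ N : ℕ, X i ^ N ∈ J ⊔ Ideal.span
        (insert z {u | u.IsHomogeneous 1 ∧ C (Ideal.Quotient.mk J u) ∈ ∑ k ∈ s, I k})) ∨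
      ∃ k, s = {k} ∧ LinRes 1 (I k)) :
    LinRes d (∏ k, I k) := by
  have h1 : ∀ k r, H k r ↔ r ∈ Pool.Agent.MP_36bee5_al.Tr.Ac (Fin m) J k := fun k r =>
    (hH k r).trans (exists_congr fun p => and_congr_left' Pool.Agent.MP_36bee5_al.Tr.mem_Ap.symm)
  have h2 := fun e P => (hL e P).trans (Pool.Agent.MP_36bee5_al.Tr.lr_iff
    (R := MvPolynomial (Fin m) (MvPolynomial (Fin n) K ⧸ J)) h1 P e).symm
  have := Pool.Agent.MP_36bee5_al.Tr.cone_products (τ := Fin m) (I := I)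
    ((Pool.Agent.MP_36bee5_al.Tr.lr_iff (H := fun k r => r.IsHomogeneous k)
      (fun _ _ => Pool.Agent.MP_36bee5_al.Tr.mem_Ap.symm) J 2).2 hJ)
    (fun k => (hI k).le.trans (Ideal.span_mono fun r hr => ⟨hr.1, (h1 1 r).1 hr.2⟩)) Finset.univ
    fun s _ hs => by
      rcases hyp s hs with h3 | h3 | ⟨k, rfl, h3⟩
      · exact Or.inr (Or.inl h3)
      · exact Or.inr (Or.inr h3)
      · rw [Finset.prod_singleton, Finset.card_singleton]
        exact Or.inl ((h2 _ _).1 h3)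
  rw [Finset.card_univ, Fintype.card_fin] at this
  exact (h2 _ _).2 this
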