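import Pool.Agent.MP_36bee5_al.Flag

set_option autoImplicit false

open MvPolynomial

/-- A complete intersection of three quadrics whose variables form a Groebner flag, and an ideal
of the flag whose square is nonzero and has no linear presentation. -/
theorem Pool.Agent.Results.MP_36bee5_al.FlagSquare.result (K : Type) [Field K]
    (J : Ideal (MvPolynomial (Fin 5) K))
    (hJ : J = Ideal.span {X 1 ^ 2 - X 0 * X 3, X 2 ^ 2, X 3 ^ 2 - X 2 * X 4})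
    (I : ℕ → Ideal (MvPolynomial (Fin 5) K ⧸ J))
    (hI : ∀ k, I k = Ideal.span {y | ∃ i : Fin 5, (i : ℕ) < k ∧ y = Ideal.Quotient.mk J (X i)}) :
    (∀ i : Fin 5, Ideal.Quotient.mk J (X i) ∉ I i ∧
      ∃ j ≤ 5, ∀ r, r ∈ I j ↔ ∀ y ∈ I (i + 1), r * y ∈ I i) ∧
    I 2 * I 2 ≠ ⊥ ∧
    ¬ ∃ (b c : ℕ) (g : Fin b → MvPolynomial (Fin 5) K ⧸ J)
        (A : Matrix (Fin b) (Fin c) (MvPolynomial (Fin 5) K ⧸ J)),
        (∀ j, ∃ p : MvPolynomial (Fin 5) K, p.IsHomogeneous 2 ∧ Ideal.Quotient.mk J p = g j) ∧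
        (∀ j l, ∃ p : MvPolynomial (Fin 5) K, p.IsHomogeneous 1 ∧ Ideal.Quotient.mk J p = A j l) ∧
        Ideal.span (Set.range g) = I 2 * I 2 ∧
        ∀ v : Fin b → MvPolynomial (Fin 5) K ⧸ J, ∑ j, v j * g j = 0 ↔ ∃ w, A.mulVec w = v := by
  subst hJ
  obtain rfl : I = Pool.Agent.MP_36bee5_al.Flag.II K := funext hI
  exact ⟨Pool.Agent.MP_36bee5_al.Flag.flag K, Pool.Agent.MP_36bee5_al.Flag.sq_ne K,
    fun ⟨_, _, g, A, hg, hA, hs, hex⟩ =>
      Pool.Agent.MP_36bee5_al.Flag.no_linear_presentation K g A hg hA hs hex⟩
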