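import Pool.Agent.MP_36bee5_al.ScrMain

set_option autoImplicit false

open MvPolynomial

/-- Let `R` be the coordinate ring of the rational normal scroll `S(a,b)`, `0 ≤ a ≤ b`, `1 ≤ b`
(a cone if `a = 0`). A product of `d` ideals, each of which is generated by linear forms with
linear first syzygies (no condition on the syzygies if `a = 0` or `a = b`) or belongs to a Koszul
filtration of `R`, has a `d`-linear free resolution over `R`. -/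
theorem Pool.Agent.Results.MP_36bee5_al.ScrollProducts.result (K : Type) [Field K] (a b : ℕ)
    (hab : a ≤ b) (hb : 1 ≤ b) (J : Ideal (MvPolynomial (Fin (a + 1) ⊕ Fin (b + 1)) K))
    (hJ : J = RingHom.ker (aeval (Sum.elim
      (fun i : Fin (a + 1) => X 0 * X 2 ^ (i : ℕ) * X 3 ^ (a - i))
      (fun j : Fin (b + 1) => X 1 * X 2 ^ (j : ℕ) * X 3 ^ (b - j))) :
        MvPolynomial (Fin (a + 1) ⊕ Fin (b + 1)) K →ₐ[K] MvPolynomial (Fin 4) K))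
    (H : ℕ → (MvPolynomial (Fin (a + 1) ⊕ Fin (b + 1)) K ⧸ J) → Prop)
    (hH : ∀ k r, H k r ↔ ∃ p : MvPolynomial (Fin (a + 1) ⊕ Fin (b + 1)) K,
      p.IsHomogeneous k ∧ Ideal.Quotient.mk J p = r)
    (d : ℕ) (I : Fin d → Ideal (MvPolynomial (Fin (a + 1) ⊕ Fin (b + 1)) K ⧸ J))
    (hI : ∀ k,
      (∃ (m : ℕ) (g : Fin m → MvPolynomial (Fin (a + 1) ⊕ Fin (b + 1)) K ⧸ J),
        (∀ j, H 1 (g j)) ∧ Ideal.span (Set.range g) = I k ∧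
        (a = 0 ∨ a = b ∨ ∀ u : Fin m → MvPolynomial (Fin (a + 1) ⊕ Fin (b + 1)) K ⧸ J,
          ∑ j, u j * g j = 0 → u ∈ Submodule.span (MvPolynomial (Fin (a + 1) ⊕ Fin (b + 1)) K ⧸ J)
            {w : Fin m → MvPolynomial (Fin (a + 1) ⊕ Fin (b + 1)) K ⧸ J |
              (∀ j, H 1 (w j)) ∧ ∑ j, w j * g j = 0})) ∨
      ∃ F : Set (Ideal (MvPolynomial (Fin (a + 1) ⊕ Fin (b + 1)) K ⧸ J)), I k ∈ F ∧
        (∀ L ∈ F, L = Ideal.span {y | y ∈ L ∧ H 1 y}) ∧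
        ∀ L ∈ F, L ≠ ⊥ → ∃ L' ∈ F, L' ≤ L ∧ (∃ x, H 1 x ∧ L = L' ⊔ Ideal.span {x}) ∧
          ∃ D ∈ F, ∀ r, r ∈ D ↔ ∀ y ∈ L, r * y ∈ L') :
    ∃ (n : ℕ → ℕ) (g : Fin (n 0) → MvPolynomial (Fin (a + 1) ⊕ Fin (b + 1)) K ⧸ J)
      (A : (i : ℕ) → Matrix (Fin (n i)) (Fin (n (i + 1)))
        (MvPolynomial (Fin (a + 1) ⊕ Fin (b + 1)) K ⧸ J)),
      (∀ j, H d (g j)) ∧ (∀ i p q, H 1 (A i p q)) ∧ Ideal.span (Set.range g) = ∏ k, I k ∧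
      (∀ v : Fin (n 0) → MvPolynomial (Fin (a + 1) ⊕ Fin (b + 1)) K ⧸ J,
        ∑ j, v j * g j = 0 ↔ ∃ w, (A 0).mulVec w = v) ∧
      (∀ (i : ℕ) (v : Fin (n (i + 1)) → MvPolynomial (Fin (a + 1) ⊕ Fin (b + 1)) K ⧸ J),
        (A i).mulVec v = 0 ↔ ∃ w, (A (i + 1)).mulVec w = v) := by
  obtain ⟨c, rfl⟩ := Nat.exists_eq_add_of_le hab
  obtain rfl : H = fun k r => ∃ p : MvPolynomial (Fin (a + 1) ⊕ Fin (a + c + 1)) K,
      p.IsHomogeneous k ∧ Ideal.Quotient.mk J p = r := funext fun k => funext fun r => propext (hH k r)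
  obtain ⟨ι, hm, hK⟩ := Pool.Agent.MP_36bee5_al.Scr.scroll_model K a c J hJ
  refine hm.main hb hK d I fun k => ?_
  rcases hI k with ⟨m, g, h1, h2, h3⟩ | ⟨F, h1, h2, h3⟩
  · exact ⟨m, g, h1, h2, h3.imp id (Or.imp (fun h => by omega) id)⟩
  · obtain ⟨m, g, h4, h5, h6⟩ := hm.koszul hK F h2 h3 (I k) h1
    exact ⟨m, g, h4, h5, Or.inr (Or.inr h6)⟩
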