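import Pool.Agent.MP_36bee5_al.StbD

set_option autoImplicit false

open MvPolynomial Pool.Agent.MP_36bee5_al.Stb

/-- Let `R = K[y_1, …, y_n] / J` be standard graded with `reg_S R > c`: the ideal `J` has no graded
free resolution with shifts at most `i + c + 1` in step `i`. Adjoin variables `x_{k,i}`, `k < p`.
For some `p` the product of the ideal generated by the forms `y_i - ∑_k x_{k,i}` and of the `p`
ideals generated by the blocks `x_{k,1}, …, x_{k,n}` is nonzero and its first syzygies are not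
generated by vectors of forms of degree at most `c`; and these `p + 1` ideals lie in a Koszul
filtration of the polynomial extension as soon as `R` has one. -/
theorem Pool.Agent.Results.MP_36bee5_al.StableFailure.result (K : Type) [Field K] (n c : ℕ)
    (J : Ideal (MvPolynomial (Fin n) K))
    (hJ : ∀ f ∈ J, ∀ i : ℕ, homogeneousComponent i f ∈ J)
    (hreg : ¬ ∃ (b : ℕ → ℕ) (d : (i : ℕ) → Fin (b i) → ℕ) (g : Fin (b 0) → MvPolynomial (Fin n) K)
      (A : (i : ℕ) → Matrix (Fin (b i)) (Fin (b (i + 1))) (MvPolynomial (Fin n) K)),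
      (∀ i j, d i j ≤ i + c + 1) ∧ (∀ j, (g j).IsHomogeneous (d 0 j)) ∧
      (∀ i p q, ∀ m ∈ (A i p q).support, d i p + m.degree = d (i + 1) q) ∧
      Ideal.span (Set.range g) = J ∧
      (∀ v : Fin (b 0) → MvPolynomial (Fin n) K, ∑ j, v j * g j = 0 ↔ ∃ w, (A 0).mulVec w = v) ∧
      (∀ (i : ℕ) (v : Fin (b (i + 1)) → MvPolynomial (Fin n) K),
        (A i).mulVec v = 0 ↔ ∃ w, (A (i + 1)).mulVec w = v)) :
    ∃ (p : ℕ) (I : Fin (p + 1) → Ideal (MvPolynomial (Fin p × Fin n) (MvPolynomial (Fin n) K ⧸ J)))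
      (L : Submodule K (MvPolynomial (Fin p × Fin n) (MvPolynomial (Fin n) K ⧸ J))),
      I 0 = Ideal.span (Set.range fun i => C (Ideal.Quotient.mk J (X i)) - ∑ k, X (k, i)) ∧
      (∀ k : Fin p, I k.succ = Ideal.span (Set.range fun i => X (k, i))) ∧
      L = Submodule.span K (Set.range X ∪ Set.range fun i => C (Ideal.Quotient.mk J (X i))) ∧
      ∏ k, I k ≠ ⊥ ∧
      ¬ PresDeg (A := MvPolynomial (Fin p × Fin n) (MvPolynomial (Fin n) K ⧸ J)) L c (∏ k, I k) ∧
      ∀ F : Set (Ideal (MvPolynomial (Fin n) K ⧸ J)),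
        KoszulFil (Submodule.span K (Set.range fun i => Ideal.Quotient.mk J (X i)) :
          Set (MvPolynomial (Fin n) K ⧸ J)) F →
        ∃ F' : Set (Ideal (MvPolynomial (Fin p × Fin n) (MvPolynomial (Fin n) K ⧸ J))),
          KoszulFil (L : Set (MvPolynomial (Fin p × Fin n) (MvPolynomial (Fin n) K ⧸ J))) F' ∧
          ∀ k, I k ∈ F' := by
  obtain ⟨p, hp⟩ := not_forall.1 fun h => hreg (reg_le hJ h)
  have e : ∏ k : Fin (p + 1), (Fin.cons (IY (fun i => Ideal.Quotient.mk J (X i)) Finset.univ)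
      (IX (MvPolynomial (Fin n) K ⧸ J) n) : Fin (p + 1) → Ideal _) k =
      W (fun i => Ideal.Quotient.mk J (X i)) (Finset.univ : Finset (Fin p)) Finset.univ := by
    rw [Fin.prod_univ_succ, W, mul_comm]; rfl
  refine ⟨p, Fin.cons (IY (fun i => Ideal.Quotient.mk J (X i)) Finset.univ) (IX _ n), _, rfl,
    fun k => rfl, rfl, ?_, ?_, fun F hF => ?_⟩
  · rw [e]
    intro h0
    exact hp ⟨0, 0, Fin.elim0, Fin.elim0, Fin.elim0, by simp [h0], fun t => t.elim0,
      fun j => j.elim0, fun v => ⟨fun _ => ⟨0, Subsingleton.elim _ _⟩, fun _ => by simp⟩⟩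
  · rw [e]; exact hp
  · obtain ⟨F', h1, h2, h3⟩ := exists_fil (σ := Fin p) _ hF
    exact ⟨F', h1, Fin.cases h2 h3⟩
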